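import Pool.Agent.N41.RM.Bad

/-!
# The rotated products of Birch and Swinnerton-Dyer of an abelian variety over `ℚ`, with the numbers of
# points over the fields with `p` and `p²` elements only
-/

set_option autoImplicit false

namespace Pool.Agent.P8H11.Rot

open Filter Topology Set ArithmeticFunction
open scoped ArithmeticFunction.Moebius
open Pool.Agent.N41.RM
open Pool.Agent.W187.UR (Lam)

/-! ### The kernel near zero -/

theorem inv_gamma_le {u : ℝ} (hu : 0 ≤ u) : (Real.Gamma (1 + u))⁻¹ ≤ 1 + u := by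
  have h1 : Real.Gamma (1 + u + 1) = (1 + u) * Real.Gamma (1 + u) :=
    Real.Gamma_add_one (by linarith)
  have h2 : 1 ≤ Real.Gamma (1 + u + 1) := by
    have h5 : Real.Gamma 2 ≤ Real.Gamma (1 + u + 1) :=
      Real.Gamma_strictMonoOn_Ici.monotoneOn (by simp) (by
        rw [mem_Ici]; linarith) (by linarith)
    rwa [Real.Gamma_two] at h5
  have h3 : 0 < Real.Gamma (1 + u) := Real.Gamma_pos_of_pos (by linarith)
  rw [inv_le_comm₀ h3 (by linarith)]
  rw [h1] at h2
  rw [inv_le_iff_one_le_mul₀ (by linarith)]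
  linarith

theorem inv_gamma_le_two {u : ℝ} (hu : 0 ≤ u) : (Real.Gamma (1 + u))⁻¹ ≤ 2 := by
  by_cases h : u ≤ 1
  · exact (inv_gamma_le hu).trans (by linarith)
  · push Not at h
    have h2 : 1 ≤ Real.Gamma (1 + u) := by
      have h5 : Real.Gamma 2 ≤ Real.Gamma (1 + u) :=
        Real.Gamma_strictMonoOn_Ici.monotoneOn (by simp) (by
          rw [mem_Ici]; linarith) (by linarith)
      rwa [Real.Gamma_two] at h5
    exact (inv_le_one_of_one_le₀ h2).trans (by norm_num)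

theorem inv_gamma_sub {u : ℝ} (hu : 0 ≤ u) : |(Real.Gamma (1 + u))⁻¹ - 1| ≤ u := by
  have h0 := inv_gamma_le hu
  rw [abs_le]
  refine ⟨?_, by linarith⟩
  by_cases h : u ≤ 1
  · have h3 : 0 < Real.Gamma (1 + u) := Real.Gamma_pos_of_pos (by linarith)
    have h1 : Real.Gamma (1 + u) ≤ 1 := by
      have hc := Real.convexOn_Gamma.2 (show (1 : ℝ) ∈ Ioi 0 by simp)
        (show (2 : ℝ) ∈ Ioi 0 by simp) (show (0 : ℝ) ≤ 1 - u by linarith) hu (by ring)
      simp only [smul_eq_mul, Real.Gamma_one, Real.Gamma_two] at hc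
      have e1 : (1 - u) * 1 + u * 2 = 1 + u := by ring
      rw [e1] at hc
      linarith
    have h2 : 1 ≤ (Real.Gamma (1 + u))⁻¹ := (one_le_inv₀ h3).2 h1
    linarith
  · push Not at h
    have h3 : 0 < (Real.Gamma (1 + u))⁻¹ := inv_pos.2 (Real.Gamma_pos_of_pos (by linarith))
    linarith

theorem omt_sub_one {γ : ℝ} (hγ : 0 ≤ γ) {T t : ℝ} (hT : 0 < T) (ht : 0 ≤ t) :
    ‖omt γ T t - 1‖ ≤ (2 * γ + 1) * (t / T) := by
  have hu : 0 ≤ t / T := div_nonneg ht hT.le
  set u := t / T with hudef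
  unfold omt
  rw [← hudef]
  have e1 : Complex.exp ((γ * u : ℝ) * Complex.I) * ((Real.Gamma (1 + u))⁻¹ : ℝ) - 1 =
      (Complex.exp ((γ * u : ℝ) * Complex.I) - 1) * ((Real.Gamma (1 + u))⁻¹ : ℝ) +
        (((Real.Gamma (1 + u))⁻¹ - 1 : ℝ) : ℂ) := by
    push_cast
    ring
  rw [e1]
  have h3 : 0 < (Real.Gamma (1 + u))⁻¹ := inv_pos.2 (Real.Gamma_pos_of_pos (by linarith))
  have h4 : ‖Complex.exp ((γ * u : ℝ) * Complex.I) - 1‖ ≤ γ * u := by
    have := Real.norm_exp_I_mul_ofReal_sub_one_le (x := γ * u)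
    rw [mul_comm Complex.I] at this
    refine this.trans ?_
    rw [Real.norm_eq_abs, abs_of_nonneg (by positivity)]
  calc ‖(Complex.exp ((γ * u : ℝ) * Complex.I) - 1) * ((Real.Gamma (1 + u))⁻¹ : ℝ) +
        (((Real.Gamma (1 + u))⁻¹ - 1 : ℝ) : ℂ)‖
      ≤ ‖(Complex.exp ((γ * u : ℝ) * Complex.I) - 1)‖ * ‖(((Real.Gamma (1 + u))⁻¹ : ℝ) : ℂ)‖ +
        ‖(((Real.Gamma (1 + u))⁻¹ - 1 : ℝ) : ℂ)‖ := by
        refine (norm_add_le _ _).trans ?_
        rw [norm_mul]
    _ ≤ (γ * u) * 2 + u := by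
        rw [Complex.norm_real, Complex.norm_real, Real.norm_eq_abs, Real.norm_eq_abs,
          abs_of_pos h3]
        refine add_le_add (mul_le_mul h4 (inv_gamma_le_two hu) h3.le (by positivity))
          (inv_gamma_sub hu)
    _ = (2 * γ + 1) * u := by ring

/-! ### The terms with exponents at least three -/

theorem sum_moebius_eq_zero {e : ℕ} (he : 2 ≤ e) :
    ∑ x ∈ e.divisorsAntidiagonal, ((μ x.1 : ℤ) : ℂ) = 0 := by
  have h1 := coe_mul_zeta_apply (f := (μ : ArithmeticFunction ℤ)) (x := e)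
  rw [moebius_mul_coe_zeta, one_apply_ne (by omega)] at h1
  have h2 : ∑ x ∈ e.divisorsAntidiagonal, (μ x.1 : ℤ) = ∑ i ∈ e.divisors, μ i := by
    rw [Nat.sum_divisorsAntidiagonal (fun i => fun _ => (μ i : ℤ))]
  have h3 : ∑ x ∈ e.divisorsAntidiagonal, (μ x.1 : ℤ) = 0 := by rw [h2, ← h1]
  exact_mod_cast h3

theorem norm_mb_sub {ω : ℕ → ℂ} {c : ℝ} (hc : 0 ≤ c) (hω : ∀ n, 1 ≤ n → ‖ω n - 1‖ ≤ c * n)
    {e : ℕ} (he : 2 ≤ e) : ‖mb ω e‖ ≤ c * e ^ 2 := by
  have h1 : mb ω e = ∑ x ∈ e.divisorsAntidiagonal, ((μ x.1 : ℤ) : ℂ) * (ω x.2 - 1) := by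
    unfold mb
    have h2 := sum_moebius_eq_zero he
    simp_rw [mul_sub, mul_one]
    rw [Finset.sum_sub_distrib, h2, sub_zero]
  rw [h1]
  refine (norm_sum_le_of_le (n := fun _ => c * e) _ fun x hx => ?_).trans ?_
  · rw [Nat.mem_divisorsAntidiagonal] at hx
    have h2 : 1 ≤ x.2 := by
      rcases Nat.eq_zero_or_pos x.2 with h | h
      · rw [h, mul_zero] at hx
        exact absurd hx.1.symm hx.2
      · exact h
    have h2' : 1 ≤ x.1 := by
      rcases Nat.eq_zero_or_pos x.1 with h | h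
      · rw [h, zero_mul] at hx
        exact absurd hx.1.symm hx.2
      · exact h
    have h5 : x.2 ≤ e := by
      rw [← hx.1]
      exact Nat.le_mul_of_pos_left _ h2'
    rw [norm_mul]
    have h3 : ‖((μ x.1 : ℤ) : ℂ)‖ ≤ 1 := by
      rw [Complex.norm_intCast]
      exact_mod_cast abs_moebius_le_one (n := x.1)
    calc ‖((μ x.1 : ℤ) : ℂ)‖ * ‖ω x.2 - 1‖ ≤ 1 * (c * x.2) := by
          gcongr
          exact hω _ h2
      _ ≤ c * e := by
          rw [one_mul]
          gcongr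
  · rw [Finset.sum_const, nsmul_eq_mul]
    have h4 : ((e.divisorsAntidiagonal.card : ℕ) : ℝ) ≤ e := by
      have : e.divisorsAntidiagonal.card ≤ e := by
        rw [← Nat.map_div_right_divisors, Finset.card_map]
        exact Nat.card_divisors_le_self e
      exact_mod_cast this
    calc ((e.divisorsAntidiagonal.card : ℕ) : ℝ) * (c * e) ≤ e * (c * e) := by gcongr
      _ = c * e ^ 2 := by ring

variable {P : Type} {N : ℕ} {q : P → ℝ} {a : P → Fin N → ℂ}

set_option maxHeartbeats 1000000 in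
theorem pterm_tail (E : EN q a) {γ : ℝ} (hγ : 0 ≤ γ) {T : ℝ} (hT : 0 < T) (v : P) (k : ℕ) :
    ‖pterm q a γ T (v, k + 2)‖ ≤
      (1 / T) * ((4 * N * (2 * γ + 1) * (Real.log (q v) * q v ^ (-(3 / 2) : ℝ))) *
        ((k + 3) * (3 / 4) ^ k)) := by
  have hq := E.pos v
  have hlq : 0 ≤ Real.log (q v) := Real.log_nonneg (by linarith [E.two_le v])
  have ha1 : ∀ j, ‖a v j‖ ≤ 3 / 4 := fun j => by
    have := (E.norm_pow v j 0).2
    rwa [zero_add, pow_one] at this
  have ha3 : ∀ j, ‖a v j ^ (k + 2 + 1)‖ ≤ q v ^ (-(3 / 2) : ℝ) * (3 / 4) ^ k := by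
    intro j
    have e1 : a v j ^ (k + 2 + 1) = a v j ^ 3 * a v j ^ k := by rw [← pow_add]; congr 1; ring
    rw [e1, norm_mul, _root_.norm_pow, _root_.norm_pow]
    have h1 : ‖a v j‖ ^ 3 ≤ q v ^ (-(3 / 2) : ℝ) := by
      calc ‖a v j‖ ^ 3 ≤ (q v ^ (-(1 / 2) : ℝ)) ^ 3 :=
            pow_le_pow_left₀ (norm_nonneg _) (E.ha v j) 3
        _ = q v ^ (-(3 / 2) : ℝ) := by
            rw [← Real.rpow_natCast, ← Real.rpow_mul hq.le]
            norm_num
    exact mul_le_mul h1 (pow_le_pow_left₀ (norm_nonneg _) (ha1 j) k) (by positivity)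
      (by positivity)
  have h1 : ‖∑ j, Complex.log (1 - a v j ^ (k + 2 + 1))‖ ≤
      N * (4 * (q v ^ (-(3 / 2) : ℝ) * (3 / 4) ^ k)) := by
    refine (norm_sum_le_of_le (n := fun _ => 4 * (q v ^ (-(3 / 2) : ℝ) * (3 / 4) ^ k)) _
      fun j _ => ?_).trans (le_of_eq ?_)
    · exact (Pool.Agent.R409.RA.log_bound (E.norm_pow v j (k + 2)).2).trans
        (by gcongr; exact ha3 j)
    · rw [Finset.sum_const, Finset.card_univ, Fintype.card_fin, nsmul_eq_mul]
  have h2 := norm_mb_sub (ω := fun n => omt γ T (n * Real.log (q v)))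
    (c := (2 * γ + 1) * (Real.log (q v) / T)) (by positivity)
    (fun n hn => (omt_sub_one hγ hT (by positivity)).trans (le_of_eq (by ring)))
    (e := k + 2 + 1) (by omega)
  have hk : (0 : ℝ) < ((k + 2 + 1 : ℕ) : ℝ) := by positivity
  unfold pterm
  simp only
  rw [norm_mul, norm_div, Complex.norm_natCast]
  calc ‖∑ j, Complex.log (1 - a v j ^ (k + 2 + 1))‖ / ((k + 2 + 1 : ℕ) : ℝ) *
        ‖mb (fun n => omt γ T (n * Real.log (q v))) (k + 2 + 1)‖
      ≤ (N * (4 * (q v ^ (-(3 / 2) : ℝ) * (3 / 4) ^ k))) / ((k + 2 + 1 : ℕ) : ℝ) *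
        ((2 * γ + 1) * (Real.log (q v) / T) * ((k + 2 + 1 : ℕ) : ℝ) ^ 2) := by gcongr
    _ = _ := by
        field_simp
        push_cast
        ring

/-- the sum of the terms of degrees one and two -/
noncomputable def two (q : P → ℝ) (a : P → Fin N → ℂ) (γ T : ℝ) (v : P) : ℂ :=
  pterm q a γ T (v, 0) + pterm q a γ T (v, 1)

theorem two_summable (E : EN q a) (γ : ℝ) {T : ℝ} (hT : 0 < T) :
    Summable fun v => ‖two q a γ T v‖ := by
  have h := E.pterm_summable γ hT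
  have h0 : Summable fun v : P => ‖pterm q a γ T (v, 0)‖ :=
    h.comp_injective (i := fun v : P => (v, 0)) (fun x y hxy => (Prod.ext_iff.1 hxy).1)
  have h1 : Summable fun v : P => ‖pterm q a γ T (v, 1)‖ :=
    h.comp_injective (i := fun v : P => (v, 1)) (fun x y hxy => (Prod.ext_iff.1 hxy).1)
  exact Summable.of_nonneg_of_le (fun v => norm_nonneg _) (fun v => norm_add_le _ _) (h0.add h1)

set_option maxHeartbeats 4000000 in
theorem two_close (E : EN q a) (hlog : Summable fun v => Real.log (q v) * q v ^ (-(3 / 2) : ℝ))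
    {γ : ℝ} (hγ : 0 ≤ γ) :
    ∃ C : ℝ, ∀ T : ℝ, 0 < T → ‖rmn q a γ T - ∑' v, two q a γ T v‖ ≤ C / T := by
  have hk : Summable fun k : ℕ => ((k : ℝ) + 3) * (3 / 4 : ℝ) ^ k := by
    have h1 : Summable fun k : ℕ => (k : ℝ) * (3 / 4 : ℝ) ^ k := by
      have := summable_pow_mul_geometric_of_norm_lt_one 1 (r := (3 / 4 : ℝ)) (by
        rw [Real.norm_eq_abs, abs_of_pos (by norm_num)]; norm_num)
      simpa using this
    have h2 : Summable fun k : ℕ => 3 * (3 / 4 : ℝ) ^ k :=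
      (summable_geometric_of_lt_one (by norm_num) (by norm_num)).mul_left 3
    refine (h1.add h2).congr fun k => ?_
    ring
  have hmaj : Summable fun x : P × ℕ =>
      (4 * N * (2 * γ + 1) * (Real.log (q x.1) * q x.1 ^ (-(3 / 2) : ℝ))) *
        (((x.2 : ℝ) + 3) * (3 / 4) ^ x.2) := by
    refine (hlog.mul_left (4 * N * (2 * γ + 1))).mul_of_nonneg hk (fun v => ?_) (fun k => ?_)
    · have := E.pos v
      have hlq : 0 ≤ Real.log (q v) := Real.log_nonneg (by linarith [E.two_le v])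
      show 0 ≤ 4 * N * (2 * γ + 1) * (Real.log (q v) * q v ^ (-(3 / 2) : ℝ))
      positivity
    · show 0 ≤ ((k : ℝ) + 3) * (3 / 4 : ℝ) ^ k
      positivity
  refine ⟨∑' x : P × ℕ, (4 * N * (2 * γ + 1) * (Real.log (q x.1) * q x.1 ^ (-(3 / 2) : ℝ))) *
        (((x.2 : ℝ) + 3) * (3 / 4) ^ x.2), fun T hT => ?_⟩
  have hS := (E.pterm_summable γ hT).of_norm
  have hT2 : Summable fun x : P × ℕ => ‖pterm q a γ T (x.1, x.2 + 2)‖ :=
    (E.pterm_summable γ hT).comp_injective (i := fun x : P × ℕ => (x.1, x.2 + 2))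
      (fun x y hxy => by
        have h1 := Prod.ext_iff.1 hxy
        exact Prod.ext h1.1 (by have := h1.2; simp only at this; omega))
  have hfib : ∀ v : P, Summable fun k : ℕ => pterm q a γ T (v, k) := fun v =>
    hS.comp_injective (i := fun k : ℕ => (v, k)) (fun x y hxy => (Prod.ext_iff.1 hxy).2)
  have e1 : rmn q a γ T - ∑' v, two q a γ T v = ∑' x : P × ℕ, pterm q a γ T (x.1, x.2 + 2) := by
    rw [← E.tsum_pterm γ hT, hS.tsum_prod, hT2.of_norm.tsum_prod]
    have h1 : ∀ v : P, ∑' k : ℕ, pterm q a γ T (v, k) =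
        two q a γ T v + ∑' k : ℕ, pterm q a γ T (v, k + 2) := by
      intro v
      have h2 := (hfib v).sum_add_tsum_nat_add 2
      rw [← h2, Finset.sum_range_succ, Finset.sum_range_one]
      rfl
    have h3 : Summable fun v : P => ∑' k : ℕ, pterm q a γ T (v, k + 2) :=
      hT2.of_norm.prod
    rw [tsum_congr h1, Summable.tsum_add (two_summable E γ hT).of_norm h3]
    ring
  rw [e1]
  refine (norm_tsum_le_tsum_norm hT2).trans ?_
  rw [div_eq_mul_one_div, mul_comm, ← tsum_mul_left]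
  exact Summable.tsum_le_tsum (fun x => pterm_tail E hγ hT x.1 x.2) hT2 (hmaj.mul_left _)

end Pool.Agent.P8H11.Rot
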