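import Pool.Agent.P8H11.Rot
import Pool.Agent.N41.RM.Pts

/-!
# The law for the products with the numbers of points over the fields with `p` and `p²` elements
-/

set_option autoImplicit false

namespace Pool.Agent.P8H11.Rot

open Filter Topology Set
open Pool.Agent.N41.RM
open Pool.Agent.W187.UR (Lam)

variable {P : Type} {N : ℕ} {q : P → ℝ} {a : P → Fin N → ℂ} {Φ : ℂ → ℂ}

/-- the law for the sum of the terms of degrees one and two -/
theorem two_law [Countable P] (E : EN q a)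
    (hlog : Summable fun v => Real.log (q v) * q v ^ (-(3 / 2) : ℝ))
    (hmer : ∀ x ∈ Icc (0 : ℝ) (1 / 2), MeromorphicAt Φ (x : ℂ))
    (hF : ∀ w : ℂ, 1 / 2 < w.re → HasProd (fun v => ∏ j, (1 - a v j * (q v : ℂ) ^ (-w))⁻¹) (Φ w))
    {γ : ℝ} (hγ : Real.pi / 2 < γ) :
    ∃ (m : ℤ) (l : ℝ), meromorphicOrderAt Φ 0 = m ∧ meromorphicTrailingCoeffAt Φ 0 = l ∧ l ≠ 0 ∧
      (fun T : ℝ => ∑' v, two q a γ T v - (m * (Real.log T - Lam γ) - Real.log |l| +
        Real.pi * (∑ᶠ x ∈ Ioi (0 : ℝ), (meromorphicOrderAt Φ (x : ℂ)).untop₀ : ℤ) *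
          Complex.I)) =O[atTop] (fun T : ℝ => 1 / T) ∧
      Tendsto (fun T : ℝ => Complex.exp (∑' v, two q a γ T v) / (T : ℂ) ^ m) atTop
        (𝓝 (Complex.exp (-(m * Lam γ)) / l)) := by
  obtain ⟨m, l, h1, h2, h3, h4, h5⟩ := E.law hmer hF hγ
  obtain ⟨C, hC⟩ := two_close E hlog (γ := γ) (by have := Real.pi_pos; linarith)
  have hO : (fun T : ℝ => ∑' v, two q a γ T v - rmn q a γ T) =O[atTop] (fun T : ℝ => 1 / T) := by
    refine Asymptotics.IsBigO.of_bound C ?_
    filter_upwards [eventually_gt_atTop 0] with T hT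
    rw [norm_sub_rev, Real.norm_eq_abs, abs_of_pos (by positivity : 0 < 1 / T), mul_one_div]
    exact hC T hT
  refine ⟨m, l, h1, h2, h3, ?_, ?_⟩
  · refine (hO.add h4).congr_left fun T => ?_
    ring
  · have h6 : Tendsto (fun T : ℝ => ∑' v, two q a γ T v - rmn q a γ T) atTop (𝓝 0) :=
      hO.trans_tendsto (tendsto_const_nhds.div_atTop tendsto_id)
    have h7 : Tendsto (fun T : ℝ => Complex.exp (∑' v, two q a γ T v - rmn q a γ T) *
        (Complex.exp (rmn q a γ T) / (T : ℂ) ^ m)) atTop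
        (𝓝 (1 * (Complex.exp (-(m * Lam γ)) / l))) := by
      refine Tendsto.mul ?_ h5
      have := (Complex.continuous_exp.tendsto 0).comp h6
      simpa [Function.comp_def] using this
    rw [one_mul] at h7
    refine h7.congr fun T => ?_
    rw [← mul_div_assoc, ← Complex.exp_add]
    congr 2
    ring

/-- the sign of the leading coefficient -/
theorem sign_of {W : ℝ → ℂ} {Λ : ℂ} {m e : ℤ} {l : ℝ} (hl : l ≠ 0)
    (h1 : (fun T : ℝ => W T - (m * (Real.log T - Λ) - Real.log |l| +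
        Real.pi * e * Complex.I)) =O[atTop] (fun T : ℝ => 1 / T))
    (h2 : Tendsto (fun T : ℝ => Complex.exp (W T) / (T : ℂ) ^ m) atTop
        (𝓝 (Complex.exp (-(m * Λ)) / l))) : 0 < l ↔ Even e := by
  have h3 : Tendsto (fun T : ℝ => W T - (m * (Real.log T - Λ) - Real.log |l| +
        Real.pi * e * Complex.I)) atTop (𝓝 0) :=
    h1.trans_tendsto (tendsto_const_nhds.div_atTop tendsto_id)
  have hal : 0 < |l| := abs_pos.2 hl
  have h4 : Tendsto (fun T : ℝ => Complex.exp (W T - (m * (Real.log T - Λ) - Real.log |l| +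
        Real.pi * e * Complex.I)) * (Complex.exp (-(m * Λ)) / |l| * (-1) ^ e)) atTop
      (𝓝 (1 * (Complex.exp (-(m * Λ)) / |l| * (-1) ^ e))) := by
    refine Tendsto.mul_const _ ?_
    have := (Complex.continuous_exp.tendsto 0).comp h3
    simpa [Function.comp_def] using this
  have h5 : Tendsto (fun T : ℝ => Complex.exp (W T) / (T : ℂ) ^ m) atTop
      (𝓝 (1 * (Complex.exp (-(m * Λ)) / |l| * (-1) ^ e))) := by
    refine h4.congr' ?_
    filter_upwards [eventually_gt_atTop 0] with T hT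
    have e1 : (T : ℂ) ^ m = Complex.exp (m * Real.log T) := by
      rw [Complex.exp_int_mul, ← Complex.ofReal_exp, Real.exp_log hT]
    have e2 : ((|l| : ℝ) : ℂ) = Complex.exp (Real.log |l|) := by
      rw [← Complex.ofReal_exp, Real.exp_log hal]
    have e3 : ((-1 : ℂ)) ^ e = Complex.exp (e * (Real.pi * Complex.I)) := by
      rw [Complex.exp_int_mul, Complex.exp_pi_mul_I]
    rw [e1]
    rw [e2, e3, ← Complex.exp_sub, ← Complex.exp_sub, ← Complex.exp_add, ← Complex.exp_add]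
    congr 1
    ring
  have h6 := tendsto_nhds_unique h2 h5
  rw [one_mul] at h6
  have h7 := Complex.exp_ne_zero (-((m : ℂ) * Λ))
  have hlc : (l : ℂ) ≠ 0 := by exact_mod_cast hl
  have halc : ((|l| : ℝ) : ℂ) ≠ 0 := by exact_mod_cast hal.ne'
  have h8 : ((|l| : ℝ) : ℂ) = l * (-1) ^ e := by
    have h9 : (l : ℂ)⁻¹ = ((|l| : ℝ) : ℂ)⁻¹ * (-1) ^ e := by
      rw [div_eq_mul_inv, div_eq_mul_inv, mul_assoc] at h6
      exact mul_left_cancel₀ h7 h6
    field_simp at h9
    exact h9
  rcases Int.even_or_odd e with h | h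
  · rw [h.neg_one_zpow, mul_one] at h8
    have h10 : |l| = l := by exact_mod_cast h8
    refine ⟨fun _ => h, fun _ => ?_⟩
    rw [← h10]
    exact hal
  · rw [h.neg_one_zpow] at h8
    have h10 : |l| = l * (-1) := by exact_mod_cast h8
    refine ⟨fun h11 => ?_, fun h11 => absurd h11 (Int.not_even_iff_odd.2 h)⟩
    exfalso
    rw [abs_of_pos h11] at h10
    linarith

end Pool.Agent.P8H11.Rot
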